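import Pool.Agent.H71.PD.Defs
import Pool.Agent.H48.PD.Itg

/-!
# Module NrBH: the near part of `h_w g_v`, term with the increment of `g`, Hoelder version

The proof of H48/PD/NrB (helper93) with `len (v' - v)` replaced by `len (v' - v) ^ α`, `2s < α ≤ 1`: `ker_small` with `τ = α/2 > s`: `≤ A L^(γ+α) u^(α/2-s)`, `u = min 1 (8/L²)`; if `L > 1`: `≤ C L^(γ+2s)`.
`nrBH_le`: the factor `M` is a factor of `P`.
-/

set_option autoImplicit false

open MeasureTheory Set Filter Topology Pool.Agent.H25.Kin Pool.Agent.H48.PL Pool.Agent.H87.PE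
open Pool.Agent.H48.PD
open scoped ENNReal

namespace Pool.Agent.H71.PD

variable {d : ℕ} {γ s C Ca : ℝ} {b : ℝ → ℝ}

theorem nb_angH (H : Hyp d γ s b C Ca) (h0 : 0 ≤ γ) {α : ℝ} (hα : 2 * s < α) (hα1 : α ≤ 1) :
    ∃ A : ℝ, 0 ≤ A ∧ ∀ ε : ℝ, 0 < ε → ∀ v w : Vec d, v ≠ w →
    ∫⁻ σ, ENNReal.ofReal (kerB γ b ε v w σ * (Zn (v, w, σ) * len (post v w σ - v) ^ α)) ∂(surf d) ≤
      ENNReal.ofReal (A * (1 + nsq (v - w))) := by
  have hs0 := H.hs
  obtain ⟨A, hA0, hA⟩ := ker_small H (τ := α / 2) (by linarith) (by linarith)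
  refine ⟨8 * A, by positivity, fun ε hε v w hvw => ?_⟩
  have hLp : 0 < len (v - w) := len_pos (sub_ne_zero.2 hvw)
  set L := len (v - w) with hL
  have hLsq : L ^ 2 = nsq (v - w) := len_sq _
  have hLα : 0 < L ^ α := Real.rpow_pos_of_pos hLp α
  set u : ℝ := min 1 (8 / L ^ 2) with hu
  have hu0 : 0 < u := lt_min one_pos (by positivity)
  obtain ⟨hI, hB⟩ := hA ε hε v w hvw u hu0
  rw [← hL] at hB
  have hS : MeasurableSet {σ : Vec d | 1 - cosTh v w σ ≤ u} :=
    measurableSet_le (measurable_const.sub (measurable_cosTh' v w)) measurable_const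
  have hn : ∀ᵐ σ ∂((surf d).restrict {σ : Vec d | 1 - cosTh v w σ ≤ u}),
      0 ≤ kerB γ b ε v w σ * (1 - cosTh v w σ) ^ (α / 2) := by
    refine ae_restrict_of_ae ?_
    filter_upwards [surf_ae] with σ hσ
    exact mul_nonneg (kerB_nonneg H.bd hε hσ) (Real.rpow_nonneg (one_sub_cosTh_nonneg hσ) _)
  have hb : L ^ α * (A * L ^ γ * u ^ (α / 2 - s)) ≤ 8 * A * (1 + nsq (v - w)) := by
    have h1 : u ^ (α / 2 - s) ≤ 1 := Real.rpow_le_one hu0.le (min_le_left _ _) (by linarith)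
    have h1' : 0 ≤ u ^ (α / 2 - s) := Real.rpow_nonneg hu0.le _
    rcases le_total L 1 with h | h
    · have h2 : L ^ γ ≤ 1 := Real.rpow_le_one hLp.le h h0
      have h2' : 0 ≤ L ^ γ := Real.rpow_nonneg hLp.le _
      have h2a : L ^ α ≤ 1 := Real.rpow_le_one hLp.le h (by linarith)
      have h3 : L ^ α * (A * L ^ γ * u ^ (α / 2 - s)) ≤ 1 * (A * 1 * 1) := by gcongr
      rw [← hLsq]
      nlinarith [sq_nonneg L, mul_nonneg hA0 (sq_nonneg L)]
    · have h2 : u ^ (α / 2 - s) ≤ (8 / L ^ 2) ^ (α / 2 - s) :=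
        Real.rpow_le_rpow hu0.le (min_le_right _ _) (by linarith)
      have h3 : (8 / L ^ 2) ^ (α / 2 - s) ≤ 8 * L ^ (2 * s - α) := by
        rw [Real.div_rpow (by norm_num) (by positivity), div_eq_mul_inv]
        have e1 : ((L ^ 2) ^ (α / 2 - s))⁻¹ = L ^ (2 * s - α) := by
          rw [← Real.rpow_natCast L 2, ← Real.rpow_mul hLp.le, ← Real.rpow_neg hLp.le]
          congr 1
          push_cast
          ring
        rw [e1]
        have e2 : (8 : ℝ) ^ (α / 2 - s) ≤ 8 := by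
          calc (8 : ℝ) ^ (α / 2 - s) ≤ 8 ^ (1 : ℝ) :=
                Real.rpow_le_rpow_of_exponent_le (by norm_num) (by linarith)
            _ = 8 := Real.rpow_one 8
        have := Real.rpow_nonneg hLp.le (2 * s - α)
        gcongr
      have h4 : L ^ α * L ^ γ * L ^ (2 * s - α) ≤ L ^ 2 := by
        have e1 : L ^ α * L ^ γ * L ^ (2 * s - α) = L ^ (γ + 2 * s) := by
          rw [← Real.rpow_add hLp, ← Real.rpow_add hLp]
          congr 1
          ring
        rw [e1, ← Real.rpow_two]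
        exact Real.rpow_le_rpow_of_exponent_le h H.h2
      have hg : 0 ≤ L ^ γ := Real.rpow_nonneg hLp.le _
      calc L ^ α * (A * L ^ γ * u ^ (α / 2 - s)) ≤ L ^ α * (A * L ^ γ * (8 * L ^ (2 * s - α))) := by
            gcongr
            exact h2.trans h3
        _ = 8 * A * (L ^ α * L ^ γ * L ^ (2 * s - α)) := by ring
        _ ≤ 8 * A * L ^ 2 := by gcongr
        _ ≤ 8 * A * (1 + nsq (v - w)) := by rw [← hLsq]; gcongr; linarith
  calc ∫⁻ σ, ENNReal.ofReal (kerB γ b ε v w σ * (Zn (v, w, σ) * len (post v w σ - v) ^ α)) ∂(surf d)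
      ≤ ∫⁻ σ, {σ : Vec d | 1 - cosTh v w σ ≤ u}.indicator (fun σ => ENNReal.ofReal
          (L ^ α * (kerB γ b ε v w σ * (1 - cosTh v w σ) ^ (α / 2)))) σ ∂(surf d) := by
        refine lintegral_mono_ae ?_
        filter_upwards [surf_ae] with σ hσ
        have hk := kerB_nonneg (γ := γ) H.bd hε (v := v) (w := w) hσ
        have hy := one_sub_cosTh_nonneg (v := v) (w := w) hσ
        by_cases hz : Zn (v, w, σ) = 0
        · rw [hz, zero_mul, mul_zero, ENNReal.ofReal_zero]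
          exact zero_le
        · obtain ⟨z1, z2, z3⟩ := Zn_supp hvw hσ hz
          have hm : 1 - cosTh v w σ ≤ u := by
            refine le_min (by linarith) ?_
            rw [le_div_iff₀ (by positivity), hLsq]
            linarith
          rw [indicator_of_mem (show σ ∈ {σ : Vec d | 1 - cosTh v w σ ≤ u} from hm)]
          refine ENNReal.ofReal_le_ofReal ?_
          rw [len_post_sub hvw hσ, ← hL, Real.mul_rpow hLp.le (Real.sqrt_nonneg _)]
          have e1 : Real.sqrt ((1 - cosTh v w σ) / 2) ^ α ≤ (1 - cosTh v w σ) ^ (α / 2) := by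
            have e2 : (1 - cosTh v w σ) ^ (α / 2) = Real.sqrt (1 - cosTh v w σ) ^ α := by
              rw [Real.sqrt_eq_rpow, ← Real.rpow_mul hy]
              congr 1
              ring
            rw [e2]
            exact Real.rpow_le_rpow (Real.sqrt_nonneg _) (Real.sqrt_le_sqrt (by linarith))
              (by linarith)
          have hZ0 := Zn_nonneg (v, w, σ)
          have hZ1 := Zn_le_one (v, w, σ)
          have hr : 0 ≤ Real.sqrt ((1 - cosTh v w σ) / 2) ^ α :=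
            Real.rpow_nonneg (Real.sqrt_nonneg _) _
          calc kerB γ b ε v w σ * (Zn (v, w, σ) * (L ^ α * Real.sqrt ((1 - cosTh v w σ) / 2) ^ α))
              ≤ kerB γ b ε v w σ * (1 * (L ^ α * (1 - cosTh v w σ) ^ (α / 2))) := by gcongr
            _ = _ := by ring
    _ = ∫⁻ σ in {σ : Vec d | 1 - cosTh v w σ ≤ u}, ENNReal.ofReal
          (L ^ α * (kerB γ b ε v w σ * (1 - cosTh v w σ) ^ (α / 2))) ∂(surf d) :=
        lintegral_indicator hS _
    _ = ENNReal.ofReal (∫ σ in {σ : Vec d | 1 - cosTh v w σ ≤ u},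
          L ^ α * (kerB γ b ε v w σ * (1 - cosTh v w σ) ^ (α / 2)) ∂(surf d)) := by
        refine (ofReal_integral_eq_lintegral_ofReal (hI.const_mul (L ^ α)) ?_).symm
        filter_upwards [hn] with σ hσ
        exact mul_nonneg hLα.le hσ
    _ ≤ ENNReal.ofReal (8 * A * (1 + nsq (v - w))) := by
        refine ENNReal.ofReal_le_ofReal ?_
        rw [integral_const_mul]
        exact (mul_le_mul_of_nonneg_left hB hLα.le).trans hb

theorem nrBH_le (H : Hyp d γ s b C Ca) (h0 : 0 ≤ γ) {α : ℝ} (hα : 2 * s < α) (hα1 : α ≤ 1)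
    (Cl : ℕ → ℝ) : ∃ K : ℝ, 0 ≤ K ∧
    ∀ ε : ℝ, 0 < ε → ∀ M : ℝ, 0 ≤ M → ∀ f g : Vec d → ℝ, FB Cl f → FB Cl g → LBH α M Cl g →
    |∫ p, kerB γ b ε p.1 p.2.1 p.2.2 * (Zn p * ((f p.2.1 - g p.2.1) *
        (g p.1 - g (post p.1 p.2.1 p.2.2)) * sj (fun u => f u - g u) (post p.1 p.2.1 p.2.2))) ∂(mu3 d)| ≤
      K * M * N2 fun u => f u - g u := by
  have hs0 := H.hs
  obtain ⟨A, hA0, hA⟩ := nb_angH H h0 hα hα1
  set M : ℕ := d + 1 + (d + 5) + 0 with hM
  set Cn : ℝ := |Cl (M + 2)| with hCn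
  have hCn0 : 0 ≤ Cn := abs_nonneg _
  set K0 : ℝ := Cn * (9 * ((d : ℝ) + 1)) with hK0
  have hK00 : 0 ≤ K0 := by positivity
  set W : ℝ := ∫ v : Vec d, wt d v with hW
  have hW0 : 0 ≤ W := integral_nonneg fun v => wt_nonneg v
  refine ⟨2 * A * K0 * ((d : ℝ) + 1) * W, by positivity, fun ε hε m hm f g hf hg hl => ?_⟩
  set K1 : ℝ := m * K0 with hK1
  have hK10 : 0 ≤ K1 := by positivity
  set h : Vec d → ℝ := fun u => f u - g u with hh
  have hhc : Continuous h := hf.nice.cont.sub hg.nice.cont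
  have hhr : RD h := by
    have := hf.nice.rd.add hg.nice.rd.neg
    simpa [hh, sub_eq_add_neg] using this
  have hhm : Measurable h := hhc.measurable
  have hgm : Measurable g := hg.nice.cont.measurable
  have mpost : Measurable fun p : Vec d × Vec d × Vec d => post p.1 p.2.1 p.2.2 :=
    (continuous_post (d := d)).measurable
  have mv : Measurable fun p : Vec d × Vec d × Vec d => p.1 := measurable_fst
  have mw : Measurable fun p : Vec d × Vec d × Vec d => p.2.1 := measurable_fst.comp measurable_snd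
  -- the majorant
  set X : Vec d × Vec d × Vec d → ℝ := fun p => Zn p * len (post p.1 p.2.1 p.2.2 - p.1) ^ α with hX
  set P : Vec d × Vec d → ℝ := fun q => |h q.2| * (K1 * ((1 + ‖q.1‖) ^ M)⁻¹) with hP
  set B : Vec d × Vec d → ℝ := fun q => A * (1 + nsq (q.1 - q.2)) with hB
  have mX : Measurable X := by
    refine Zn_meas.mul ?_
    exact (continuous_len.measurable.comp (mpost.sub mv)).pow_const α
  have mP : Measurable P := by
    have h1 : Measurable fun q : Vec d × Vec d => |h q.2| :=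
      (hhc.abs.measurable).comp measurable_snd
    have h2 : Continuous fun v : Vec d => K1 * ((1 + ‖v‖) ^ M)⁻¹ := by
      refine continuous_const.mul (Continuous.inv₀ (by fun_prop) fun v => ?_)
      exact (pow_pos (w_pos v) M).ne'
    exact h1.mul (h2.measurable.comp measurable_fst)
  have hP0 : ∀ q, 0 ≤ P q := fun q =>
    mul_nonneg (abs_nonneg _) (mul_nonneg hK10 (inv_nonneg.2 (pow_nonneg (w_pos _).le _)))
  have hB0 : ∀ q, 0 ≤ B q := fun q =>
    mul_nonneg hA0 (by have := sq_nonneg' (q.1 - q.2); linarith)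
  have hX0 : ∀ v w σ : Vec d, nsq σ = 1 → 0 ≤ X (v, w, σ) := fun v w σ _ =>
    mul_nonneg (Zn_nonneg _) (Real.rpow_nonneg (len_nonneg _) _)
  -- decay of the weight
  have hwt : ∀ v : Vec d, ((1 + ‖v‖) ^ M)⁻¹ * jb v ^ 2 ≤ ((d : ℝ) + 1) * wt d v := by
    intro v
    have h1 := jb2_le v
    have h2 := one_le_w v
    have h3 : 0 < (1 + ‖v‖) ^ M := pow_pos (w_pos v) M
    have h4 : 0 < (1 + ‖v‖) ^ (d + 1) := pow_pos (w_pos v) _
    unfold wt
    rw [inv_mul_le_iff₀ h3, ← div_eq_mul_inv]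
    have h5 : (1 + ‖v‖) ^ (d + 1) * (1 + ‖v‖) ^ 2 ≤ (1 + ‖v‖) ^ M := by
      rw [← pow_add]
      exact pow_le_pow_right₀ h2 (by omega)
    calc jb v ^ 2 ≤ (d + 1) * (1 + ‖v‖) ^ 2 := h1
      _ = ((d : ℝ) + 1) / (1 + ‖v‖) ^ (d + 1) * ((1 + ‖v‖) ^ (d + 1) * (1 + ‖v‖) ^ 2) := by
          field_simp
      _ ≤ ((d : ℝ) + 1) / (1 + ‖v‖) ^ (d + 1) * (1 + ‖v‖) ^ M := by gcongr
      _ = _ := by ring
  have hPB : ∀ q : Vec d × Vec d, P q * B q ≤
      (2 * A * K1 * ((d : ℝ) + 1)) * (wt d q.1 * (|h q.2| * jb q.2 ^ 2)) := by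
    rintro ⟨v, w⟩
    have h1 := one_add_nsq_sub v w
    have h2 := hwt v
    have h3 : 0 ≤ ((1 + ‖v‖) ^ M)⁻¹ := inv_nonneg.2 (pow_nonneg (w_pos v).le _)
    have h4 := abs_nonneg (h w)
    have h5 : 0 ≤ jb w ^ 2 := sq_nonneg _
    calc P (v, w) * B (v, w) = |h w| * (K1 * ((1 + ‖v‖) ^ M)⁻¹) * (A * (1 + nsq (v - w))) := rfl
      _ ≤ |h w| * (K1 * ((1 + ‖v‖) ^ M)⁻¹) * (A * (2 * (jb v ^ 2 * jb w ^ 2))) := by gcongr
      _ = 2 * A * K1 * ((((1 + ‖v‖) ^ M)⁻¹ * jb v ^ 2) * (|h w| * jb w ^ 2)) := by ring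
      _ ≤ 2 * A * K1 * ((((d : ℝ) + 1) * wt d v) * (|h w| * jb w ^ 2)) := by gcongr
      _ = _ := by ring
  have hj : Integrable fun w : Vec d => |h w| * jb w ^ 2 := by
    have h1 : RD fun w : Vec d => h w * jb w ^ 2 := by
      refine hhr.mul_PG ⟨2, (d : ℝ) + 1, fun v => ?_⟩
      rw [Real.norm_eq_abs, abs_of_nonneg (sq_nonneg _)]
      exact jb2_le v
    have h2 := (h1.integrable (hhc.mul (jb_cont.pow 2)).aestronglyMeasurable).norm
    refine h2.congr (Eventually.of_forall fun w => ?_)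
    show ‖h w * jb w ^ 2‖ = |h w| * jb w ^ 2
    rw [norm_mul, Real.norm_eq_abs, Real.norm_eq_abs, abs_of_nonneg (sq_nonneg (jb w))]
  have hI2 : Integrable (fun q : Vec d × Vec d =>
      (2 * A * K1 * ((d : ℝ) + 1)) * (wt d q.1 * (|h q.2| * jb q.2 ^ 2))) := by
    have h1 : Integrable (fun q : Vec d × Vec d => wt d q.1 * (|h q.2| * jb q.2 ^ 2))
        ((volume : Measure (Vec d)).prod (volume : Measure (Vec d))) :=
      Integrable.mul_prod (f := wt d) (g := fun w : Vec d => |h w| * jb w ^ 2) integrable_wt hj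
    exact h1.const_mul _
  have mB : Measurable B := by
    have h1 : Continuous fun q : Vec d × Vec d => nsq (q.1 - q.2) :=
      continuous_sq.comp (by fun_prop : Continuous fun q : Vec d × Vec d => q.1 - q.2)
    exact (measurable_const.mul (measurable_const.add h1.measurable))
  have hI : Integrable (fun q : Vec d × Vec d => P q * B q) := by
    refine hI2.mono' (mP.mul mB).aestronglyMeasurable (Eventually.of_forall fun q => ?_)
    rw [Real.norm_eq_abs, abs_of_nonneg (mul_nonneg (hP0 q) (hB0 q))]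
    exact hPB q
  have hfin : ∫ q : Vec d × Vec d, P q * B q ≤ 2 * A * K0 * ((d : ℝ) + 1) * W * m * N2 h := by
    calc ∫ q : Vec d × Vec d, P q * B q
        ≤ ∫ q : Vec d × Vec d, (2 * A * K1 * ((d : ℝ) + 1)) * (wt d q.1 * (|h q.2| * jb q.2 ^ 2)) :=
          integral_mono hI hI2 hPB
      _ = (2 * A * K1 * ((d : ℝ) + 1)) * (W * N2 h) := by
          rw [integral_const_mul, Measure.volume_eq_prod]
          congr 1
          exact integral_prod_mul (wt d) fun w : Vec d => |h w| * jb w ^ 2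
      _ = _ := by rw [hK1]; ring
  have hmain := fub_le H hε (X := X) (P := P) (B := B) mX hX0 mP hP0 hB0
    (fun v w hvw => hA ε hε v w hvw) hI
  refine le_trans ?_ (hmain.trans hfin)
  -- integrability of the majorant
  obtain ⟨D, hD0, hD⟩ := hhr.bound M
  have hIm : Integrable (fun p : Vec d × Vec d × Vec d =>
      kerB γ b ε p.1 p.2.1 p.2.2 * (P (p.1, p.2.1) * X p)) (mu3 d) := by
    have h1 := int_piece (P := fun p : Vec d × Vec d × Vec d => P (p.1, p.2.1)) (Φ := X) (K := 0)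
      (A := D * K1) (B := 2) H.hd H.g1 H.g2 H.bm H.bd H.β0 hε
      (mP.comp (mv.prodMk mw)) mX (by positivity) (by norm_num)
      (fun v w σ _ => by
        have h2 := hD w
        rw [Real.norm_eq_abs] at h2
        have h3 : 0 ≤ ((1 + ‖v‖) ^ M)⁻¹ := inv_nonneg.2 (pow_nonneg (w_pos v).le _)
        show |P (v, w)| ≤ D * K1 * pw M v w
        rw [abs_of_nonneg (hP0 (v, w))]
        show |h w| * (K1 * ((1 + ‖v‖) ^ M)⁻¹) ≤ D * K1 * pw M v w
        unfold pw
        rw [mul_pow, mul_inv]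
        calc |h w| * (K1 * ((1 + ‖v‖) ^ M)⁻¹)
            ≤ (D * ((1 + ‖w‖) ^ M)⁻¹) * (K1 * ((1 + ‖v‖) ^ M)⁻¹) := by gcongr
          _ = _ := by ring)
      (fun v w σ _ => by
        rw [pow_zero, mul_one]
        show |Zn (v, w, σ) * len (post v w σ - v) ^ α| ≤ 2
        have hz0 := Zn_nonneg (v, w, σ)
        have hz1 := Zn_le_one (v, w, σ)
        have hl0 := len_nonneg (post v w σ - v)
        have hlα := Real.rpow_nonneg hl0 α
        rw [abs_of_nonneg (mul_nonneg hz0 hlα)]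
        by_cases h3 : len (post v w σ - v) ≤ 2
        · have h5 : len (post v w σ - v) ^ α ≤ 2 := by
            calc len (post v w σ - v) ^ α ≤ 2 ^ α := Real.rpow_le_rpow hl0 h3 (by linarith)
              _ ≤ 2 ^ (1 : ℝ) := Real.rpow_le_rpow_of_exponent_le (by norm_num) hα1
              _ = 2 := Real.rpow_one 2
          calc Zn (v, w, σ) * len (post v w σ - v) ^ α ≤ 1 * 2 := by gcongr
            _ = 2 := by norm_num
        · have h4 : Zn (v, w, σ) = 0 := by
            push Not at h3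
            unfold Zn
            split_ifs
            · exact ct_zero h3.le
            · rfl
          rw [h4, zero_mul]
          norm_num)
    refine h1.congr (Eventually.of_forall fun p => ?_)
    simp only
    ring
  rw [← Real.norm_eq_abs]
  refine norm_integral_le_of_norm_le hIm ?_
  filter_upwards [ae_good H.hd1] with p hp
  obtain ⟨v, w, σ⟩ := p
  obtain ⟨hvw, hσ⟩ := hp
  have hvw : v ≠ w := hvw
  have hσ : nsq σ = 1 := hσ
  have hk := kerB_nonneg (γ := γ) H.bd hε (v := v) (w := w) hσ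
  show ‖kerB γ b ε v w σ * (Zn (v, w, σ) * (h w * (g v - g (post v w σ)) * sj h (post v w σ)))‖ ≤
    kerB γ b ε v w σ * (|h w| * (K1 * ((1 + ‖v‖) ^ M)⁻¹) * (Zn (v, w, σ) * len (post v w σ - v) ^ α))
  rw [Real.norm_eq_abs, abs_mul, abs_of_nonneg hk]
  refine mul_le_mul_of_nonneg_left ?_ hk
  have hz0 := Zn_nonneg (v, w, σ)
  rw [abs_mul, abs_of_nonneg hz0]
  by_cases hz : Zn (v, w, σ) = 0
  · rw [hz, zero_mul, zero_mul, mul_zero]
  obtain ⟨z1, z2, z3⟩ := Zn_supp hvw hσ hz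
  have hinc := hl (M + 2) (post v w σ) v z2.le
  have hlen := len_nonneg (post v w σ - v)
  have hlenα := Real.rpow_nonneg hlen α
  have hw0 := w_pos v
  have hwM : 0 < (1 + ‖v‖) ^ M := pow_pos hw0 M
  have hsj : |sj h (post v w σ)| ≤ 9 * ((d : ℝ) + 1) * (1 + ‖v‖) ^ 2 := by
    refine (abs_sj_le h _).trans ((jb2_le _).trans ?_)
    have h1 : ‖post v w σ‖ ≤ ‖v‖ + ‖post v w σ - v‖ := by
      have := norm_add_le v (post v w σ - v)
      rwa [add_sub_cancel] at this
    have h2 := norm_le_len (post v w σ - v)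
    have h3 : 1 + ‖post v w σ‖ ≤ 3 * (1 + ‖v‖) := by linarith [norm_nonneg v]
    have h4 := pow_le_pow_left₀ (w_pos (post v w σ)).le h3 2
    calc ((d : ℝ) + 1) * (1 + ‖post v w σ‖) ^ 2 ≤ ((d : ℝ) + 1) * (3 * (1 + ‖v‖)) ^ 2 := by gcongr
      _ = _ := by ring
  have hgi : |g v - g (post v w σ)| ≤ m * Cn * len (post v w σ - v) ^ α * ((1 + ‖v‖) ^ (M + 2))⁻¹ := by
    rw [← div_eq_mul_inv, le_div_iff₀ (pow_pos hw0 _), mul_comm]
    refine hinc.trans ?_
    have h1 : Cl (M + 2) ≤ Cn := le_abs_self _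
    gcongr
  have hhw := abs_nonneg (h w)
  rw [abs_mul, abs_mul]
  calc Zn (v, w, σ) * (|h w| * |g v - g (post v w σ)| * |sj h (post v w σ)|)
      ≤ Zn (v, w, σ) * (|h w| * (m * Cn * len (post v w σ - v) ^ α * ((1 + ‖v‖) ^ (M + 2))⁻¹) *
          (9 * ((d : ℝ) + 1) * (1 + ‖v‖) ^ 2)) := by
        have hgn := abs_nonneg (g v - g (post v w σ))
        have hin : 0 ≤ ((1 + ‖v‖) ^ (M + 2))⁻¹ := inv_nonneg.2 (pow_nonneg hw0.le _)
        gcongr
    _ = |h w| * (K1 * (((1 + ‖v‖) ^ (M + 2))⁻¹ * (1 + ‖v‖) ^ 2)) *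
          (Zn (v, w, σ) * len (post v w σ - v) ^ α) := by
        rw [hK1, hK0]
        ring
    _ = |h w| * (K1 * ((1 + ‖v‖) ^ M)⁻¹) * (Zn (v, w, σ) * len (post v w σ - v) ^ α) := by
        have e : ((1 + ‖v‖) ^ (M + 2))⁻¹ * (1 + ‖v‖) ^ 2 = ((1 + ‖v‖) ^ M)⁻¹ := by
          rw [pow_add]
          field_simp
        rw [e]

end Pool.Agent.H71.PD
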