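import Pool.Agent.H71.PD.Defs
import Pool.Agent.H48.PD.NrB

/-!
# Module Itp: interpolation

`(1+|v|)^N |g v - g u| ≤ 2 · 3^N Cl N` (decay, `1 + |v| ≤ 3 (1 + |u|)` if `len (u - v) ≤ 2`) and `≤ 3^N Cl N t^(-κ) len (u - v)` (`inc_g`): geometric mean with weights `1-α`, `α`.
-/

set_option autoImplicit false

open MeasureTheory Set Filter Topology Pool.Agent.H25.Kin Pool.Agent.H48.PL Pool.Agent.H48.PD

namespace Pool.Agent.H71.PD

variable {d : ℕ}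

theorem FB_mono {Cl Cl' : ℕ → ℝ} {g : Vec d → ℝ} (hg : FB Cl g) (h : ∀ N, Cl N ≤ Cl' N) :
    FB Cl' g := ⟨hg.nice, hg.nonneg, fun N v => (hg.le N v).trans (h N)⟩

theorem FB_cl_nonneg {Cl : ℕ → ℝ} {g : Vec d → ℝ} (hg : FB Cl g) (N : ℕ) : 0 ≤ Cl N :=
  le_trans (mul_nonneg (by positivity) (hg.nonneg 0)) (hg.le N 0)

private lemma pow_le3 {u v : Vec d} (h : len (u - v) ≤ 2) (N : ℕ) :
    (1 + ‖v‖) ^ N ≤ 3 ^ N * (1 + ‖u‖) ^ N := by
  rw [← mul_pow]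
  refine pow_le_pow_left₀ (by positivity) ?_ N
  have h1 : ‖v‖ ≤ ‖u‖ + ‖u - v‖ := by
    have := norm_sub_le u (u - v)
    simpa using this
  have h2 := norm_le_len (u - v)
  have h3 := norm_nonneg u
  linarith

private lemma itp_aux {a A x α : ℝ} (hx : 0 ≤ x) (hA : 0 ≤ A) (h0 : 0 ≤ α) (h1 : α ≤ 1)
    (ha : a ≤ A) (hb : a ≤ A * x) : a ≤ A * x ^ α := by
  rcases le_total x 1 with h | h
  · rcases hx.eq_or_lt with h2 | h2
    · subst h2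
      rw [mul_zero] at hb
      exact hb.trans (mul_nonneg hA (Real.rpow_nonneg le_rfl _))
    · refine hb.trans (mul_le_mul_of_nonneg_left ?_ hA)
      have := Real.rpow_le_rpow_of_exponent_ge h2 h h1
      rwa [Real.rpow_one] at this
  · have h3 := Real.one_le_rpow h h0
    calc a ≤ A * 1 := by rw [mul_one]; exact ha
      _ ≤ A * x ^ α := mul_le_mul_of_nonneg_left h3 hA

theorem lbh_of {Cl : ℕ → ℝ} {g : Vec d → ℝ} (hg : FB Cl g) {κ t : ℝ} (ht : 0 < t)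
    (hl : ∀ (N : ℕ) (v : Vec d), (1 + ‖v‖) ^ N * (t ^ κ * ‖fderiv ℝ g v‖) ≤ Cl N) {α : ℝ}
    (h0 : 0 ≤ α) (h1 : α ≤ 1) : LBH α (t ^ (-(κ * α))) (fun N => 2 * 3 ^ N * Cl N) g := by
  have htk : 0 < t ^ κ := Real.rpow_pos_of_pos ht κ
  have htn : 0 < t ^ (-κ) := Real.rpow_pos_of_pos ht _
  have hinv : t ^ (-κ) * t ^ κ = 1 := by
    rw [← Real.rpow_add ht, neg_add_cancel, Real.rpow_zero]
  have hLB : LB (fun N => t ^ (-κ) * Cl N) g := by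
    intro N v
    calc (1 + ‖v‖) ^ N * ‖fderiv ℝ g v‖
        = t ^ (-κ) * ((1 + ‖v‖) ^ N * (t ^ κ * ‖fderiv ℝ g v‖)) := by
          linear_combination (-((1 + ‖v‖) ^ N * ‖fderiv ℝ g v‖)) * hinv
      _ ≤ t ^ (-κ) * Cl N := mul_le_mul_of_nonneg_left (hl N v) htn.le
  intro N u v h
  have hC := FB_cl_nonneg hg N
  have h3 : (1 : ℝ) ≤ 3 ^ N := one_le_pow₀ (by norm_num)
  have hP : (0 : ℝ) ≤ (1 + ‖v‖) ^ N := by positivity
  have hA : (0 : ℝ) ≤ 2 * 3 ^ N * Cl N := by positivity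
  have hlen := len_nonneg (u - v)
  have hx : 0 ≤ t ^ (-κ) * len (u - v) := mul_nonneg htn.le hlen
  have b1 : (1 + ‖v‖) ^ N * |g v - g u| ≤ 2 * 3 ^ N * Cl N := by
    have e1 : |g v - g u| ≤ g v + g u := by
      rw [abs_le]
      constructor <;> linarith [hg.nonneg v, hg.nonneg u]
    have e2 := hg.le N v
    have e3 : (1 + ‖v‖) ^ N * g u ≤ 3 ^ N * Cl N := by
      calc (1 + ‖v‖) ^ N * g u ≤ 3 ^ N * (1 + ‖u‖) ^ N * g u :=
            mul_le_mul_of_nonneg_right (pow_le3 h N) (hg.nonneg u)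
        _ = 3 ^ N * ((1 + ‖u‖) ^ N * g u) := by ring
        _ ≤ 3 ^ N * Cl N := mul_le_mul_of_nonneg_left (hg.le N u) (by positivity)
    calc (1 + ‖v‖) ^ N * |g v - g u| ≤ (1 + ‖v‖) ^ N * (g v + g u) :=
          mul_le_mul_of_nonneg_left e1 hP
      _ = (1 + ‖v‖) ^ N * g v + (1 + ‖v‖) ^ N * g u := by ring
      _ ≤ Cl N + 3 ^ N * Cl N := add_le_add e2 e3
      _ ≤ 3 ^ N * Cl N + 3 ^ N * Cl N := by nlinarith
      _ = 2 * 3 ^ N * Cl N := by ring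
  have b2 : (1 + ‖v‖) ^ N * |g v - g u| ≤ 2 * 3 ^ N * Cl N * (t ^ (-κ) * len (u - v)) := by
    refine (inc_g hg.nice hLB N h).trans ?_
    have : 0 ≤ 3 ^ N * Cl N * (t ^ (-κ) * len (u - v)) := by positivity
    nlinarith
  have b3 := itp_aux hx hA h0 h1 b1 b2
  have e : (t ^ (-κ) * len (u - v)) ^ α = t ^ (-(κ * α)) * len (u - v) ^ α := by
    rw [Real.mul_rpow htn.le hlen, ← Real.rpow_mul ht.le]
    congr 2
    ring
  rw [e] at b3
  calc (1 + ‖v‖) ^ N * |g v - g u| ≤ 2 * 3 ^ N * Cl N * (t ^ (-(κ * α)) * len (u - v) ^ α) := b3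
    _ = t ^ (-(κ * α)) * (2 * 3 ^ N * Cl N) * len (u - v) ^ α := by ring

end Pool.Agent.H71.PD
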