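import Pool.Agent.H48.PD.Tim
import Pool.Agent.H48.PI.Shift

/-!
# Module TimH: the norm of the difference in time, singular rate

`tim_leH`: apply `tim_le` (H48/PD/Tim) to the solutions shifted by `s/2` (`sol_shift`), on which the rate is at most `K (1 + (s/2)^(-θ)) ≤ 2 K (1 + s^(-θ))`.
`NT_zeroH`: Gronwall: for `0 < r ≤ t`: `NT t ≤ (NT r + δ) exp (2 φ t - 2 φ r)` with `φ' τ = K (1 + τ^(-θ))` (`image_le_of_liminf_slope_right_lt_deriv_boundary'`), `φ t = K (t + t^(1-θ)/(1-θ))`; `r → 0`, `NT 0 = 0`, `δ → 0`.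
-/

set_option autoImplicit false

open MeasureTheory Set Filter Topology Pool.Agent.H25.Kin Pool.Agent.H48.PL Pool.Agent.H48.PD
open Pool.Agent.H48.PI

namespace Pool.Agent.H71.PD

variable {d : ℕ} {T : ℝ} {Q R f g : ℝ → Vec d → Vec d → ℝ}

lemma NT_nonneg (f g : ℝ → Vec d → Vec d → ℝ) (t : ℝ) : 0 ≤ NT f g t :=
  integral_nonneg fun _ => mul_nonneg (abs_nonneg _) (sq_nonneg _)

lemma NT_int_nonneg (f g : ℝ → Vec d → Vec d → ℝ) {s t : ℝ} (hst : s ≤ t) :
    0 ≤ ∫ τ in s..t, NT f g τ :=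
  intervalIntegral.integral_nonneg hst fun τ _ => NT_nonneg f g τ

theorem tim_leH (hf : IsClassicalSol T Q f) (hg : IsClassicalSol T R g) {K θ s t : ℝ} (hK : 0 ≤ K)
    (h0 : 0 ≤ θ) (h1 : θ ≤ 1) (hs : 0 < s) (hst : s ≤ t) (ht : t < T)
    (h : ∀ τ ∈ Ioc 0 t, ∀ x, ∫ v, (Q τ x v - R τ x v) * sj (fun u => f τ x u - g τ x u) v ≤
      K * (1 + τ ^ (-θ)) * N2 fun u => f τ x u - g τ x u) :
    NT f g t ≤ NT f g s + 2 * K * (1 + s ^ (-θ)) * ∫ τ in s..t, NT f g τ := by
  set s₀ : ℝ := s / 2 with hs₀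
  have hs0 : 0 < s₀ := by positivity
  have hF := sol_shift (t₀ := s₀) hf hs0.le
  have hG := sol_shift (t₀ := s₀) hg hs0.le
  have key := tim_le hF hG (K := K * (1 + s₀ ^ (-θ))) (r := s - s₀) (t := t - s₀)
    (by linarith) (by linarith) (by linarith) (by
      intro τ hτ x
      have hτ' : s₀ + τ ∈ Ioc 0 t := ⟨by linarith [hτ.1], by linarith [hτ.2]⟩
      refine (h (s₀ + τ) hτ' x).trans ?_
      refine mul_le_mul_of_nonneg_right ?_ (integral_nonneg fun v => mul_nonneg (abs_nonneg _) (sq_nonneg _))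
      refine mul_le_mul_of_nonneg_left ?_ hK
      have := Real.rpow_le_rpow_of_nonpos hs0 (by linarith [hτ.1] : s₀ ≤ s₀ + τ)
        (by linarith : -θ ≤ 0)
      linarith)
  have e1 : ∀ τ : ℝ, NT (fun t => f (s₀ + t)) (fun t => g (s₀ + t)) τ = NT f g (s₀ + τ) :=
    fun τ => rfl
  rw [e1, e1] at key
  have e2 : ∫ τ in (s - s₀)..(t - s₀), NT (fun t => f (s₀ + t)) (fun t => g (s₀ + t)) τ =
      ∫ τ in s..t, NT f g τ := by
    simp_rw [e1]
    rw [intervalIntegral.integral_comp_add_left (fun τ => NT f g τ) s₀]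
    congr 1 <;> ring
  rw [e2, add_sub_cancel, add_sub_cancel] at key
  refine key.trans ?_
  have e3 : K * (1 + s₀ ^ (-θ)) ≤ 2 * K * (1 + s ^ (-θ)) := by
    have e4 : s₀ ^ (-θ) ≤ 2 * s ^ (-θ) := by
      rw [hs₀, Real.div_rpow hs.le (by norm_num), Real.rpow_neg (by norm_num : (0 : ℝ) ≤ 2),
        div_inv_eq_mul, mul_comm]
      refine mul_le_mul_of_nonneg_right ?_ (Real.rpow_nonneg hs.le _)
      have := Real.rpow_le_rpow_of_exponent_le (by norm_num : (1 : ℝ) ≤ 2) h1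
      rwa [Real.rpow_one] at this
    have e5 : 0 ≤ s ^ (-θ) := Real.rpow_nonneg hs.le _
    nlinarith
  have := mul_le_mul_of_nonneg_right e3 (NT_int_nonneg f g hst)
  linarith

private lemma phi_deriv {K θ x : ℝ} (h1 : θ < 1) (hx : 0 < x) :
    HasDerivAt (fun t : ℝ => K * (t + t ^ (1 - θ) / (1 - θ))) (K * (1 + x ^ (-θ))) x := by
  have h2 : HasDerivAt (fun t : ℝ => t ^ (1 - θ)) ((1 - θ) * x ^ (1 - θ - 1)) x :=
    Real.hasDerivAt_rpow_const (Or.inl hx.ne')
  have h3 := ((hasDerivAt_id x).add (h2.div_const (1 - θ))).const_mul K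
  refine h3.congr_deriv ?_
  have h4 : (1 - θ) ≠ 0 := by linarith
  rw [show 1 - θ - 1 = -θ by ring, mul_div_assoc, mul_div_cancel₀ _ h4]

theorem gron_step {N : ℝ → ℝ} {K θ r t δ : ℝ} (hK : 0 < K) (h1 : θ < 1) (hr : 0 < r)
    (hrt : r ≤ t) (hN0 : ∀ τ, 0 ≤ N τ) (hN : ContinuousOn N (Icc r t)) (hδ : 0 < δ)
    (h : ∀ x y : ℝ, r ≤ x → x ≤ y → y ≤ t →
      N y ≤ N x + K * (1 + x ^ (-θ)) * ∫ τ in x..y, N τ) :
    N t ≤ (N r + δ) * Real.exp (2 * (K * (t + t ^ (1 - θ) / (1 - θ)) -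
      K * (r + r ^ (1 - θ) / (1 - θ)))) := by
  set φ : ℝ → ℝ := fun t => K * (t + t ^ (1 - θ) / (1 - θ)) with hφ
  set B : ℝ → ℝ := fun x => (N r + δ) * Real.exp (2 * (φ x - φ r)) with hB
  have hBpos : ∀ x, 0 < B x := fun x =>
    mul_pos (by linarith [hN0 r]) (Real.exp_pos _)
  have hBd : ∀ x, 0 < x → HasDerivAt B (2 * (K * (1 + x ^ (-θ))) * B x) x := by
    intro x hx
    have e1 := (((phi_deriv (K := K) h1 hx).sub_const (φ r)).const_mul 2).exp.const_mul (N r + δ)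
    refine e1.congr_deriv ?_
    simp only [hB, hφ]
    ring
  have key := image_le_of_liminf_slope_right_lt_deriv_boundary' (f := N)
    (f' := fun x => K * (1 + x ^ (-θ)) * N x) (a := r) (b := t) hN ?_ (B := B)
    (B' := fun x => 2 * (K * (1 + x ^ (-θ))) * B x) ?_ ?_ ?_ ?_
  · exact key (right_mem_Icc.2 hrt)
  · intro x hx ρ hρ
    have hx0 : 0 < x := lt_of_lt_of_le hr hx.1
    set k : ℝ := K * (1 + x ^ (-θ)) with hk
    have hk0 : 0 < k := mul_pos hK (by linarith [Real.rpow_pos_of_pos hx0 (-θ)])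
    obtain ⟨η, hη, hη2⟩ : ∃ η : ℝ, 0 < η ∧ k * (N x + η) < ρ := by
      refine ⟨(ρ - k * N x) / (2 * k), div_pos (by linarith) (by linarith), ?_⟩
      have : k * (N x + (ρ - k * N x) / (2 * k)) = (k * N x + ρ) / 2 := by
        field_simp
        ring
      rw [this]
      linarith
    have hc : ContinuousWithinAt N (Icc r t) x := hN x ⟨hx.1, hx.2.le⟩
    have hev : ∀ᶠ z in 𝓝[Icc r t] x, N z < N x + η := by
      exact hc.eventually_lt_const (by linarith)
    have hev2 : ∀ᶠ z in 𝓝[>] x, ∀ τ ∈ Icc x z, N τ < N x + η := by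
      obtain ⟨ε, hε, hball⟩ := Metric.mem_nhdsWithin_iff.1 hev
      have hlt : x < min t (x + ε) := lt_min hx.2 (by linarith)
      filter_upwards [Ioo_mem_nhdsGT hlt] with z hz τ hτ
      have hz1 : z < t := lt_of_lt_of_le hz.2 (min_le_left _ _)
      have hz2 : z < x + ε := lt_of_lt_of_le hz.2 (min_le_right _ _)
      refine hball ⟨?_, ⟨hx.1.trans hτ.1, hτ.2.trans hz1.le⟩⟩
      rw [Metric.mem_ball, Real.dist_eq, abs_lt]
      constructor <;> linarith [hτ.1, hτ.2]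
    have hlt : x < t := hx.2
    have hev3 : ∀ᶠ z in 𝓝[>] x, slope N x z < ρ := by
      filter_upwards [hev2, Ioo_mem_nhdsGT hlt] with z hz hz2
      have hxz : x < z := hz2.1
      have i1 := h x z hx.1 hxz.le hz2.2.le
      have i2 : ∫ τ in x..z, N τ ≤ (N x + η) * (z - x) := by
        have hint : IntervalIntegrable N volume x z := by
          refine ContinuousOn.intervalIntegrable ?_
          rw [uIcc_of_le hxz.le]
          exact hN.mono (Icc_subset_Icc hx.1 hz2.2.le)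
        have := intervalIntegral.integral_mono_on hxz.le hint
          (intervalIntegrable_const (c := N x + η)) fun τ hτ => (hz τ hτ).le
        rw [intervalIntegral.integral_const, smul_eq_mul] at this
        linarith
      have i3 : N z - N x ≤ k * ((N x + η) * (z - x)) := by
        have := mul_le_mul_of_nonneg_left i2 hk0.le
        linarith
      rw [slope_def_field, div_lt_iff₀ (by linarith)]
      have i4 : k * (N x + η) * (z - x) < ρ * (z - x) :=
        mul_lt_mul_of_pos_right hη2 (by linarith)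
      linarith
    exact hev3.frequently
  · simp only [hB, sub_self, mul_zero, Real.exp_zero, mul_one]
    linarith
  · intro x hx
    exact (hBd x (lt_of_lt_of_le hr hx.1)).continuousAt.continuousWithinAt
  · intro x hx
    exact (hBd x (lt_of_lt_of_le hr hx.1)).hasDerivWithinAt
  · intro x hx hxB
    have hx0 : 0 < x := lt_of_lt_of_le hr hx.1
    have hk0 : 0 < K * (1 + x ^ (-θ)) := mul_pos hK (by linarith [Real.rpow_pos_of_pos hx0 (-θ)])
    show K * (1 + x ^ (-θ)) * N x < 2 * (K * (1 + x ^ (-θ))) * B x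
    rw [hxB]
    nlinarith [mul_pos hk0 (hBpos x)]

theorem NT_zeroH (hf : IsClassicalSol T Q f) (hg : IsClassicalSol T R g) {K θ T₁ : ℝ} (hK : 0 ≤ K)
    (h0 : 0 ≤ θ) (h1 : θ < 1) (h2 : 0 ≤ T₁) (h3 : T₁ < T) (he : ∀ x v, f 0 x v = g 0 x v)
    (h : ∀ s t : ℝ, 0 < s → s ≤ t → t ≤ T₁ →
      NT f g t ≤ NT f g s + K * (1 + s ^ (-θ)) * ∫ τ in s..t, NT f g τ) :
    ∀ t ∈ Icc 0 T₁, NT f g t = 0 := by
  have hz : NT f g 0 = 0 := by
    unfold NT
    simp_rw [he, sub_self, abs_zero, zero_mul]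
    exact integral_zero _ _
  have hcont := NT_cont hf hg
  intro t ht
  rcases ht.1.eq_or_lt with h5 | h5
  · rw [← h5]
    exact hz
  refine le_antisymm ?_ (NT_nonneg f g t)
  set φ : ℝ → ℝ := fun t => (K + 1) * (t + t ^ (1 - θ) / (1 - θ)) with hφ
  have main : ∀ r δ : ℝ, 0 < r → r ≤ t → 0 < δ →
      NT f g t ≤ (NT f g r + δ) * Real.exp (2 * (φ t - φ r)) := by
    intro r δ hr hrt hδ
    refine gron_step (N := NT f g) (by linarith) h1 hr hrt (NT_nonneg f g) ?_ hδ ?_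
    · refine hcont.mono fun x hx => ⟨hr.le.trans hx.1, lt_of_le_of_lt (hx.2.trans ht.2) h3⟩
    · intro x y hx hxy hy
      have hx0 : 0 < x := lt_of_lt_of_le hr hx
      refine (h x y hx0 hxy (hy.trans ht.2)).trans ?_
      have i1 := NT_int_nonneg f g hxy
      have i2 : 0 ≤ x ^ (-θ) := Real.rpow_nonneg hx0.le _
      have i3 : 0 ≤ (1 + x ^ (-θ)) * ∫ τ in x..y, NT f g τ := mul_nonneg (by linarith) i1
      nlinarith
  have hT0 : (0 : ℝ) ∈ Ico 0 T := ⟨le_rfl, by linarith⟩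
  have hNr : Tendsto (fun r => NT f g r) (𝓝[>] 0) (𝓝 0) := by
    have := hcont 0 hT0
    rw [ContinuousWithinAt, hz] at this
    refine this.mono_left ?_
    have hm : Ioo (0 : ℝ) T ∈ 𝓝[>] (0 : ℝ) := Ioo_mem_nhdsGT (by linarith)
    rw [← nhdsWithin_Ioo_eq_nhdsGT (by linarith : (0 : ℝ) < T)]
    exact nhdsWithin_mono _ Ioo_subset_Ico_self
  have hφ0 : Tendsto φ (𝓝[>] 0) (𝓝 0) := by
    have hc : ContinuousAt φ 0 := by
      refine continuousAt_const.mul (continuousAt_id.add (ContinuousAt.div_const ?_ _))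
      exact Real.continuousAt_rpow_const _ _ (Or.inr (by linarith))
    have e : φ 0 = 0 := by
      simp only [hφ]
      rw [Real.zero_rpow (by linarith)]
      simp
    have := hc.tendsto
    rw [e] at this
    exact this.mono_left nhdsWithin_le_nhds
  have lim1 : ∀ δ : ℝ, 0 < δ → NT f g t ≤ δ * Real.exp (2 * φ t) := by
    intro δ hδ
    have l1 : Tendsto (fun r => (NT f g r + δ) * Real.exp (2 * (φ t - φ r))) (𝓝[>] 0)
        (𝓝 ((0 + δ) * Real.exp (2 * (φ t - 0)))) := by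
      refine (hNr.add_const δ).mul ?_
      exact (Real.continuous_exp.tendsto _).comp ((tendsto_const_nhds.sub hφ0).const_mul 2)
    rw [zero_add, sub_zero] at l1
    refine ge_of_tendsto l1 ?_
    filter_upwards [Ioo_mem_nhdsGT h5] with r hr
    exact main r δ hr.1 hr.2.le hδ
  have l2 : Tendsto (fun δ : ℝ => δ * Real.exp (2 * φ t)) (𝓝[>] 0) (𝓝 0) := by
    have : Tendsto (fun δ : ℝ => δ * Real.exp (2 * φ t)) (𝓝 0) (𝓝 (0 * Real.exp (2 * φ t))) :=
      tendsto_id.mul_const _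
    rw [zero_mul] at this
    exact this.mono_left nhdsWithin_le_nhds
  refine ge_of_tendsto l2 ?_
  filter_upwards [self_mem_nhdsWithin] with δ hδ
  exact lim1 δ hδ

end Pool.Agent.H71.PD
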