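import Pool.Agent.H48.PD.Uni
import Pool.Agent.H71.PD.Itp
import Pool.Agent.H71.PD.FibH
import Pool.Agent.H71.PD.TimH

/-!
# Module UniH: weak-strong uniqueness with a singular gradient at `t = 0`

`α = (2s + min 1 (1/κ))/2` (`κ > 0`): `2s < α ≤ 1`, `θ = κ α < 1`.
-/

set_option autoImplicit false

open MeasureTheory Set Filter Topology Pool.Agent.H25.Kin Pool.Agent.H48.PL Pool.Agent.H48.PD

namespace Pool.Agent.H71.PD

variable {d : ℕ} {γ s C Ca : ℝ} {b : ℝ → ℝ}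

private lemma exists_al {s κ : ℝ} (hs : 2 * s < 1) (hκ : 0 ≤ κ) (hκs : κ * (2 * s) < 1) :
    ∃ α : ℝ, 2 * s < α ∧ α ≤ 1 ∧ κ * α < 1 := by
  rcases le_total κ 1 with h | h
  · refine ⟨(2 * s + 1) / 2, by linarith, by linarith, ?_⟩
    rcases le_total ((2 * s + 1) / 2) 0 with h1 | h1
    · nlinarith
    · nlinarith
  · have h0 : 0 < κ := by linarith
    have h1 : 2 * s < 1 / κ := by
      rw [lt_div_iff₀ h0]
      linarith
    have h2 : 1 / κ ≤ 1 := by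
      rw [div_le_one h0]
      exact h
    refine ⟨(2 * s + 1 / κ) / 2, by linarith, by linarith, ?_⟩
    have h3 : κ * (1 / κ) = 1 := by field_simp
    nlinarith

theorem uniqK (H : Hyp d γ s b C Ca) (h0 : 0 ≤ γ) (hs : 2 * s < 1) {κ : ℝ} (hκ : 0 ≤ κ)
    (hκs : κ * (2 * s) < 1) {T : ℝ} {f g : ℝ → Vec d → Vec d → ℝ}
    (hf : IsBoltzmannSol γ b T f) (hg : IsBoltzmannSol γ b T g) (hr : RegK κ T g)
    (he : ∀ x v, f 0 x v = g 0 x v) : ∀ t ∈ Ico 0 T, ∀ x v, f t x v = g t x v := by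
  intro t ht
  have hs0 := H.hs
  obtain ⟨α, hα, hα1, hθ⟩ := exists_al hs hκ hκs
  have hα0 : 0 ≤ α := by linarith
  have hθ0 : 0 ≤ κ * α := mul_nonneg hκ hα0
  have hf' : IsClassicalSol T (fun t x => boltzQ γ b (f t x)) f := hf
  have hg' : IsClassicalSol T (fun t x => boltzQ γ b (g t x)) g := hg
  choose C1 hC1 using hf'.decay t ht.2
  choose C2 hC2 using hg'.decay t ht.2
  choose C3 hC3 using hr t ht.2
  set Cm : ℕ → ℝ := fun N => max (max (C1 N) (C2 N)) (max (C3 N) 0) with hCm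
  set Cl : ℕ → ℝ := fun N => 2 * 3 ^ N * Cm N with hCl
  have hmono : ∀ N, Cm N ≤ Cl N := by
    intro N
    have h1 : 0 ≤ Cm N := (le_max_right _ _).trans (le_max_right _ _)
    have h3 : (1 : ℝ) ≤ 3 ^ N := one_le_pow₀ (by norm_num)
    have h4 : (1 : ℝ) ≤ 2 * 3 ^ N := by linarith
    simp only [hCl]
    nlinarith
  obtain ⟨K, hK, hfib⟩ := fib_boundH H h0 hα hα1 Cl
  have key : ∀ τ ∈ Ioc 0 t, ∀ x,
      ∫ v, (boltzQ γ b (f τ x) v - boltzQ γ b (g τ x) v) * sj (fun u => f τ x u - g τ x u) v ≤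
        K * (1 + τ ^ (-(κ * α))) * N2 fun u => f τ x u - g τ x u := by
    intro τ hτ x
    have hτ0 : τ ∈ Ioo 0 T := ⟨hτ.1, hτ.2.trans_lt ht.2⟩
    have hτ1 : τ ∈ Icc 0 t := ⟨hτ.1.le, hτ.2⟩
    have fbf : FB Cm (f τ x) := ⟨IsClassicalSol.nice hf' hτ0 x,
      fun v => hf'.nonneg τ ⟨hτ.1.le, hτ0.2⟩ x v,
      fun N v => (hC1 N τ hτ1 x v).trans (le_trans (le_max_left _ _) (le_max_left _ _))⟩
    have fbg : FB Cm (g τ x) := ⟨IsClassicalSol.nice hg' hτ0 x,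
      fun v => hg'.nonneg τ ⟨hτ.1.le, hτ0.2⟩ x v,
      fun N v => (hC2 N τ hτ1 x v).trans (le_trans (le_max_right _ _) (le_max_left _ _))⟩
    exact hfib (τ ^ (-(κ * α))) (Real.rpow_nonneg hτ.1.le _) _ _ (FB_mono fbf hmono)
      (FB_mono fbg hmono) (lbh_of fbg hτ.1
        (fun N v => (hC3 N τ hτ x v).trans ((le_max_left _ _).trans (le_max_right _ _))) hα0 hα1)
  refine eq_of_NT hf' hg' ht (NT_zeroH hf' hg' (K := 2 * K) (θ := κ * α) (by linarith) hθ0 hθ ht.1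
    ht.2 he ?_ t ⟨ht.1, le_refl _⟩)
  intro r t' hr' hrt htt
  have := tim_leH hf' hg' hK hθ0 hθ.le hr' hrt (htt.trans_lt ht.2)
    fun τ hτ x => key τ ⟨hτ.1, hτ.2.trans htt⟩ x
  exact this

theorem uniq1 (H : Hyp d γ s b C Ca) (h0 : 0 ≤ γ) (hs : 2 * s < 1) {T : ℝ}
    {f g : ℝ → Vec d → Vec d → ℝ}
    (hf : IsBoltzmannSol γ b T f) (hg : IsBoltzmannSol γ b T g) (hr : RegZero1 T g)
    (he : ∀ x v, f 0 x v = g 0 x v) : ∀ t ∈ Ico 0 T, ∀ x v, f t x v = g t x v :=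
  uniqK H h0 hs zero_le_one (by linarith) hf hg (regK_one hr) he

end Pool.Agent.H71.PD
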