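import Pool.Agent.H48.PD.Defs

/-!
# Weak-strong uniqueness with a singular gradient at `t = 0` (MP_c15324_an): definitions

THEOREM. `0 ≤ γ`, `2s < 1`, `γ + 2s ≤ 2`. Let `f`, `g` be classical solutions on `[0,T)` with the same initial value, and let
`(1+|v|)^N |∇_v g| ≤ C_N t^(-κ)` near `t = 0` for some `κ` with `2 s κ < 1` (`RegK`; for instance `κ = 1`, `RegZero1`). Then `f = g`.

PROOF. The proof of `uniq` (H48/PD/Uni) with two changes.
* Only module NrB uses the gradient of `g`: there `|g_v - g(v')| ≤ C |v' - v|` is replaced by the Hoelder bound with an exponent `α ∈ (2s, 1]` (`LBH`), the constant being a factor of the result (module NrBH, FibH). Interpolation between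
  the decay of `g` (uniform up to `t = 0`) and the gradient bound gives the Hoelder bound with the factor `t^(-κα)` (module Itp).
* In time: `d/dt NT ≤ K (1 + t^(-κα)) NT` with `κ α < 1` for `α` close to `2s` (modules TimH, UniH).
-/

set_option autoImplicit false

open MeasureTheory Set Filter Topology Pool.Agent.H25.Kin Pool.Agent.H48.PL Pool.Agent.H48.PD

namespace Pool.Agent.H71.PD

variable {d : ℕ}

/-- the gradient in `v` decays rapidly, and is at most of the order `1/t` as `t → 0` -/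
def RegZero1 (T : ℝ) (g : ℝ → Vec d → Vec d → ℝ) : Prop :=
  ∀ T₁ < T, ∀ N : ℕ, ∃ C : ℝ, ∀ t ∈ Ioc 0 T₁, ∀ x v, (1 + ‖v‖) ^ N * (t * ‖fderiv ℝ (g t x) v‖) ≤ C

/-- the gradient in `v` decays rapidly, and is at most of the order `t^(-κ)` as `t → 0` -/
def RegK (κ T : ℝ) (g : ℝ → Vec d → Vec d → ℝ) : Prop :=
  ∀ T₁ < T, ∀ N : ℕ, ∃ C : ℝ, ∀ t ∈ Ioc 0 T₁, ∀ x v,
    (1 + ‖v‖) ^ N * (t ^ κ * ‖fderiv ℝ (g t x) v‖) ≤ C

/-- Hoelder bounds with exponent `α` and a factor `M` -/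
def LBH (α M : ℝ) (Cl : ℕ → ℝ) (g : Vec d → ℝ) : Prop :=
  ∀ (N : ℕ) (u v : Vec d), len (u - v) ≤ 2 →
    (1 + ‖v‖) ^ N * |g v - g u| ≤ M * Cl N * len (u - v) ^ α

lemma regK_one {T : ℝ} {g : ℝ → Vec d → Vec d → ℝ} (h : RegZero1 T g) : RegK 1 T g := by
  intro T₁ h1 N
  obtain ⟨K, hK⟩ := h T₁ h1 N
  refine ⟨K, fun t ht x v => ?_⟩
  rw [Real.rpow_one]
  exact hK t ht x v

lemma RegK.restrict {κ T T' : ℝ} {g : ℝ → Vec d → Vec d → ℝ} (h : RegK κ T g) (h1 : T' ≤ T) :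
    RegK κ T' g := fun T₁ hT N => h T₁ (lt_of_lt_of_le hT h1) N

lemma regK_of {κ T : ℝ} (hκ : 0 ≤ κ) {g : ℝ → Vec d → Vec d → ℝ} (h : RegZero T g) :
    RegK κ T g := by
  intro T₁ h1 N
  obtain ⟨K, hK⟩ := h T₁ h1 N
  refine ⟨max T₁ 0 ^ κ * |K|, fun t ht x v => ?_⟩
  have h2 := (hK t ht x v).trans (le_abs_self K)
  have h3 : t ^ κ ≤ max T₁ 0 ^ κ :=
    Real.rpow_le_rpow ht.1.le (ht.2.trans (le_max_left _ _)) hκ
  calc (1 + ‖v‖) ^ N * (t ^ κ * ‖fderiv ℝ (g t x) v‖)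
      = t ^ κ * ((1 + ‖v‖) ^ N * ‖fderiv ℝ (g t x) v‖) := by ring
    _ ≤ max T₁ 0 ^ κ * |K| :=
        mul_le_mul h3 h2 (by positivity) (Real.rpow_nonneg (le_max_right _ _) _)

lemma regZero1_of {T : ℝ} {g : ℝ → Vec d → Vec d → ℝ} (h : RegZero T g) : RegZero1 T g := by
  intro T₁ h1 N
  obtain ⟨K, hK⟩ := regK_of (κ := 1) zero_le_one h T₁ h1 N
  refine ⟨K, fun t ht x v => ?_⟩
  have := hK t ht x v
  rwa [Real.rpow_one] at this

end Pool.Agent.H71.PD
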